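import Pool.Agent.H112R2.Final
import Pool.Agent.N437.SPC.Stm3

/-!
# Project SPC, part 3, task DET (helper221 for helper437): the deterministic step
-/

set_option autoImplicit false

namespace Pool.Agent.N221.SPC

open Finset
open scoped Pointwise
open Pool.Agent.N437.SPC

/-- the largest fibre -/
lemma pigeon {α β : Type} [DecidableEq β] (S : Finset α) (T : Finset β) (f : α → β)
    (hf : ∀ a ∈ S, f a ∈ T) (hS : S.Nonempty) :
    ∃ t ∈ T, S.card ≤ T.card * (S.filter (fun a => f a = t)).card := by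
  by_contra hcon
  push Not at hcon
  have hT : T.Nonempty := by
    obtain ⟨a, ha⟩ := hS
    exact ⟨f a, hf a ha⟩
  have h1 : S.card = ∑ t ∈ T, (S.filter (fun a => f a = t)).card :=
    Finset.card_eq_sum_card_fiberwise hf
  have h2 : T.card * S.card = ∑ t ∈ T, T.card * (S.filter (fun a => f a = t)).card := by
    rw [← Finset.mul_sum, ← h1]
  have h3 : ∑ t ∈ T, T.card * (S.filter (fun a => f a = t)).card < ∑ _t ∈ T, S.card :=
    Finset.sum_lt_sum_of_nonempty hT fun t ht => hcon t ht
  rw [Finset.sum_const, smul_eq_mul] at h3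
  omega

/-- the numerical part -/
lemma numer {C1 K Q : ℝ} (hC1 : 1 ≤ C1) (hQ : 1 ≤ Q) {d : ℕ} {T0 T : ℝ}
    (hd : (d : ℝ) ≤ 300 * Real.log (2 * (2 * Q ^ 3)))
    (hT0 : T0 ≤ (2 * (2 * Q ^ 3)) ^ (13000 * (1 + Real.log (1 + Real.log (2 * (2 * Q ^ 3))))))
    (hT : T ≤ 4 * K ^ 2 * T0 * C1 ^ (d + 1)) :
    ((d + 1 : ℕ) : ℝ) ≤ (117002 + 902 * Real.log C1) * Real.log (2 * Q) ∧
      T ≤ mb (117002 + 902 * Real.log C1) K Q := by
  set x := Real.log (2 * Q) with hx
  have hQ0 : 0 < Q := by linarith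
  have hx69 : 0.69 < x := by
    have h1 : Real.log 2 ≤ x := Real.log_le_log (by norm_num) (by linarith)
    have := Real.log_two_gt_d9
    linarith
  have hlC : 0 ≤ Real.log C1 := Real.log_nonneg hC1
  have h4 : Real.log (2 * (2 * Q ^ 3)) ≤ 3 * x := by
    have e : 2 * (2 * Q ^ 3) ≤ (2 * Q) ^ 3 := by
      have : 1 ≤ Q ^ 3 := one_le_pow₀ hQ
      nlinarith
    calc Real.log (2 * (2 * Q ^ 3)) ≤ Real.log ((2 * Q) ^ 3) := Real.log_le_log (by positivity) e
      _ = 3 * x := by rw [Real.log_pow, hx]; norm_num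
  have h40 : 0 ≤ Real.log (2 * (2 * Q ^ 3)) := Real.log_nonneg (by
    have : 1 ≤ Q ^ 3 := one_le_pow₀ hQ
    linarith)
  set lam := 1 + Real.log (1 + x) with hlam
  have hlogx : 0 ≤ Real.log (1 + x) := Real.log_nonneg (by linarith)
  have hlam1 : 1 ≤ lam := by linarith
  have hd1 : ((d + 1 : ℕ) : ℝ) ≤ 902 * x := by push_cast; linarith
  refine ⟨hd1.trans ?_, ?_⟩
  · have : 902 ≤ 117002 + 902 * Real.log C1 := by nlinarith
    gcongr
  -- the bound for T0
  have h5 : T0 ≤ Real.exp (117000 * (x * lam)) := by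
    refine hT0.trans ?_
    rw [Real.rpow_def_of_pos (by positivity)]
    apply Real.exp_le_exp.2
    have h6 : Real.log (1 + Real.log (2 * (2 * Q ^ 3))) ≤ 2 + Real.log (1 + x) := by
      calc Real.log (1 + Real.log (2 * (2 * Q ^ 3))) ≤ Real.log (3 * (1 + x)) :=
            Real.log_le_log (by linarith) (by linarith)
        _ = Real.log 3 + Real.log (1 + x) := Real.log_mul (by norm_num) (by linarith)
        _ ≤ 2 + Real.log (1 + x) := by
            have : Real.log 3 ≤ 3 - 1 := Real.log_le_sub_one_of_pos (by norm_num)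
            linarith
    have h7 : 1 + Real.log (1 + Real.log (2 * (2 * Q ^ 3))) ≤ 3 * lam := by linarith
    have h8 : 0 ≤ 1 + Real.log (1 + Real.log (2 * (2 * Q ^ 3))) := by
      have := Real.log_nonneg (show (1 : ℝ) ≤ 1 + Real.log (2 * (2 * Q ^ 3)) by linarith)
      linarith
    calc Real.log (2 * (2 * Q ^ 3)) * (13000 * (1 + Real.log (1 + Real.log (2 * (2 * Q ^ 3)))))
        ≤ 3 * x * (13000 * (3 * lam)) := by gcongr
      _ = 117000 * (x * lam) := by ring
  have h9 : C1 ^ (d + 1) ≤ Real.exp (902 * Real.log C1 * (x * lam)) := by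
    rw [← Real.exp_log (show 0 < C1 by linarith), ← Real.exp_nat_mul, Real.exp_log (by linarith)]
    apply Real.exp_le_exp.2
    calc ((d + 1 : ℕ) : ℝ) * Real.log C1 ≤ 902 * x * Real.log C1 := by gcongr
      _ ≤ 902 * (x * lam) * Real.log C1 := by
          have : x ≤ x * lam := le_mul_of_one_le_right (by linarith) hlam1
          gcongr
      _ = _ := by ring
  have h10 : (4 : ℝ) ≤ Real.exp (2 * (x * lam)) := by
    have e : (4 : ℝ) = Real.exp (2 * Real.log 2) := by
      rw [two_mul, Real.exp_add, Real.exp_log (by norm_num)]; norm_num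
    rw [e]
    apply Real.exp_le_exp.2
    have h11 : Real.log 2 ≤ x := Real.log_le_log (by norm_num) (by linarith)
    have : x ≤ x * lam := le_mul_of_one_le_right (by linarith) hlam1
    linarith
  have hC1p : 0 < C1 ^ (d + 1) := by positivity
  calc T ≤ 4 * K ^ 2 * T0 * C1 ^ (d + 1) := hT
    _ ≤ Real.exp (2 * (x * lam)) * K ^ 2 * Real.exp (117000 * (x * lam)) *
        Real.exp (902 * Real.log C1 * (x * lam)) := by
        by_cases hT00 : 0 ≤ T0
        · gcongr
        · push Not at hT00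
          have : 4 * K ^ 2 * T0 * C1 ^ (d + 1) ≤ 0 := by
            have h12 : 4 * K ^ 2 * T0 ≤ 0 := mul_nonpos_of_nonneg_of_nonpos (by positivity) hT00.le
            exact mul_nonpos_of_nonpos_of_nonneg h12 hC1p.le
          exact this.trans (by positivity)
    _ = K ^ 2 * Real.exp ((117002 + 902 * Real.log C1) * (x * lam)) := by
        have : (117002 + 902 * Real.log C1) * (x * lam) = 2 * (x * lam) + 117000 * (x * lam) +
            902 * Real.log C1 * (x * lam) := by ring
        rw [this, Real.exp_add, Real.exp_add]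
        ring
    _ = mb (117002 + 902 * Real.log C1) K Q := by
        unfold mb
        rw [Real.rpow_def_of_pos (by linarith)]
        congr 2
        rw [← hx]
        ring

theorem t_DET (h : S_SHRG) : S_DET := by
  obtain ⟨C1, hC1, hS⟩ := h
  have hlC : 0 ≤ Real.log C1 := Real.log_nonneg hC1
  refine ⟨117002 + 902 * Real.log C1, by linarith, ?_⟩
  intro Γ _ _ A G n K Q hn hA hQ hQK hAA hAG hGG hGn
  have hK1 : 1 ≤ K := hQ.trans hQK
  have hn0 : (0 : ℝ) < n := by exact_mod_cast hn
  have hAGne : (A ∩ G).Nonempty := by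
    rw [← Finset.card_pos]; omega
  have hGne : G.Nonempty := hAGne.mono Finset.inter_subset_right
  obtain ⟨d, B, ψ, H0, T0, hd, hB, hH0, hvol, hT0, hcov⟩ := H112.near_pfr hGne hGG
  -- pigeonhole
  choose! t ht c hc h' hh' e using hcov
  obtain ⟨t0, ht0, hpig⟩ := pigeon (A ∩ G) T0 t
    (fun a ha => ht a (Finset.mem_of_mem_inter_right ha)) hAGne
  set A1 := (A ∩ G).filter (fun a => t a = t0) with hA1
  have hA1ne : A1.Nonempty := by
    rw [← Finset.card_pos]
    rcases Nat.eq_zero_or_pos A1.card with h0 | h0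
    · rw [h0, mul_zero] at hpig
      have := hAGne.card_pos
      omega
    · exact h0
  have hA1A : A1 ⊆ A := (Finset.filter_subset _ _).trans Finset.inter_subset_left
  have hA1c : (0 : ℝ) < A1.card := by exact_mod_cast hA1ne.card_pos
  have hT0c : (0 : ℝ) < T0.card := by
    exact_mod_cast (Finset.card_pos.2 ⟨t0, ht0⟩)
  have hbig : (n : ℝ) ≤ 2 * (T0.card * A1.card) := by
    have : n ≤ 2 * (T0.card * A1.card) := hAG.trans (by omega)
    exact_mod_cast this
  -- Ruzsa covering
  obtain ⟨F, hFA, hF, hAF⟩ := Finset.ruzsa_covering_add (A := A) (B := A1)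
    (K := 2 * K * T0.card) hA1ne (by
      have h1 : ((A + A1).card : ℝ) ≤ K * n := by
        refine le_trans ?_ hAA
        exact_mod_cast Finset.card_le_card (Finset.add_subset_add_left hA1A)
      calc ((A + A1).card : ℝ) ≤ K * n := h1
        _ ≤ K * (2 * (T0.card * A1.card)) := by gcongr
        _ = 2 * K * T0.card * A1.card := by ring)
  -- shrinking
  obtain ⟨d', B', ψ', H', S, hd', hB', hH', hvol', hcov', hScard⟩ := hS d B ψ H0 n hB hH0 hn
  have hS2 : (S.card : ℝ) ≤ 2 * K * C1 ^ (d + 1) := by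
    have h1 : max ((latS B).ncard * Nat.card H0 : ℝ) n ≤ 2 * K * n := by
      refine max_le ?_ (by nlinarith)
      have : ((latS B).ncard * Nat.card H0 : ℝ) ≤ G.card := by exact_mod_cast hvol
      exact this.trans hGn
    have h2 : (S.card : ℝ) * n ≤ 2 * K * C1 ^ (d + 1) * n := by
      calc (S.card : ℝ) * n ≤ C1 ^ (d + 1) * max ((latS B).ncard * Nat.card H0 : ℝ) n := hScard
        _ ≤ C1 ^ (d + 1) * (2 * K * n) := by gcongr
        _ = _ := by ring
    exact le_of_mul_le_mul_right h2 hn0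
  have hnum := numer (C1 := C1) (K := K) (Q := Q) (d := d) (T0 := T0.card) (T := ((F + S).card : ℝ))
    hC1 hQ hd hT0 (by
      have h1 : ((F + S).card : ℝ) ≤ F.card * S.card := by
        exact_mod_cast Finset.card_add_le
      calc ((F + S).card : ℝ) ≤ F.card * S.card := h1
        _ ≤ (2 * K * T0.card) * (2 * K * C1 ^ (d + 1)) := by gcongr
        _ = _ := by ring)
  refine ⟨d', B', ψ', H', F + S, ?_, hB', hH', ?_, hnum.2, ?_⟩
  · refine le_trans ?_ hnum.1
    exact_mod_cast hd'
  · rw [hA]; exact hvol'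
  · intro a ha
    obtain ⟨f, hf, u, hu, rfl⟩ := Finset.mem_add.1 (hAF ha)
    obtain ⟨a1, ha1, a2, ha2, rfl⟩ := Finset.mem_sub.1 hu
    rw [hA1, Finset.mem_filter] at ha1 ha2
    have hG1 : a1 ∈ G := Finset.mem_of_mem_inter_right ha1.1
    have hG2 : a2 ∈ G := Finset.mem_of_mem_inter_right ha2.1
    have hdiff : a1 - a2 = ψ (c a1 - c a2) + (h' a1 - h' a2) := by
      have e1 := e a1 hG1
      have e2 := e a2 hG2
      rw [ha1.2] at e1
      rw [ha2.2] at e2
      rw [map_sub]
      conv_lhs => rw [e1, e2]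
      abel
    have hlat : c a1 - c a2 ∈ latS ((2 : ℝ) • B) := by
      unfold latS
      rw [Set.mem_ofPred_eq, Set.mem_smul_set]
      refine ⟨fun i => ((c a1 i : ℝ) + -(c a2 i : ℝ)) / 2, ?_, ?_⟩
      · have h1 := hc a1 hG1
        have h2 := hB.2.2.2 _ (hc a2 hG2)
        have h3 := hB.1 h1 h2 (show (0 : ℝ) ≤ 1 / 2 by norm_num) (show (0 : ℝ) ≤ 1 / 2 by norm_num)
          (by norm_num)
        convert h3 using 1
        funext i
        simp only [Pi.add_apply, Pi.smul_apply, Pi.neg_apply, smul_eq_mul]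
        ring
      · funext i
        simp only [Pi.smul_apply, Pi.sub_apply, smul_eq_mul]
        push_cast
        ring
    obtain ⟨s, hs, y, hy, k, hk, e3⟩ := hcov' _ hlat (h' a1 - h' a2)
      (H0.sub_mem (hh' a1 hG1) (hh' a2 hG2))
    refine ⟨f + s, Finset.add_mem_add hf hs, y, hy, k, hk, ?_⟩
    rw [hdiff, e3]
    abel

end Pool.Agent.N221.SPC
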